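import Pool.Agent.Lib.MP_d0893a_co.Small

/-!
# Exponentially small near-isoperimetric subsets of the grid
(problem MP_d0893a_co, Q1 in the regime `α ≤ exp (-c n)`)
-/

open Finset Pool.Agent.Grid

namespace Pool.Agent.Grid.OldSmallSets

/-- For all `L, c, ε > 0` there is `L' > 0` such that for all `k, n ≥ 1`, every nonempty
`A ⊆ [k]^n` of measure `α ≤ exp (-c n)` with `|∂A| ≤ L m(A)` has density at least `exp (-ε n)`,
hence at least `exp ((c - ε) n) α`, on a cartesian product set of measure at least `α ^ L'`. -/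
theorem result (L c ε : ℝ) (hL : 0 < L) (hc : 0 < c) (hε : 0 < ε) :
    ∃ L' : ℝ, 0 < L' ∧ ∀ k n : ℕ, 0 < k → 0 < n → ∀ A : Finset (Fin n → Fin k), A.Nonempty →
      meas A ≤ Real.exp (-(c * n)) →
      ((edgeBoundary A).card : ℝ) ≤ L * mBound A →
      ∃ S : Fin n → Finset (Fin k),
        meas A ^ L' ≤ meas (Fintype.piFinset S) ∧
        Real.exp (-(ε * n)) ≤
          ((A ∩ Fintype.piFinset S).card : ℝ) / ((Fintype.piFinset S).card : ℝ) ∧
        Real.exp ((c - ε) * n) * meas A ≤
          ((A ∩ Fintype.piFinset S).card : ℝ) / ((Fintype.piFinset S).card : ℝ) := by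
  set L₁ : ℝ := max L 1 with hL₁
  set η : ℝ := min ε 1 / 8 with hη
  have h1 : 1 ≤ L₁ := le_max_right _ _
  have hη0 : 0 < η := by rw [hη]; positivity
  have hη1 : η ≤ 1 / 8 := by
    rw [hη]
    exact div_le_div_of_nonneg_right (min_le_right _ _) (by norm_num)
  have hηε : 8 * η ≤ ε := by
    rw [hη, mul_div_cancel₀ _ (by norm_num : (8 : ℝ) ≠ 0)]
    exact min_le_left _ _
  have hR : 1 ≤ 2 * L₁ / η ^ 2 := by
    rw [le_div_iff₀ (by positivity)]
    have : η ^ 2 ≤ 1 := pow_le_one₀ hη0.le (by linarith)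
    linarith
  refine ⟨1 + Real.log (2 * L₁ / η ^ 2) / c, ?_, ?_⟩
  · have := Real.log_nonneg hR
    positivity
  · intro k n hk hn A hne hα hA
    have hm : 0 ≤ mBound A := by
      refine Real.sInf_nonneg ?_
      rintro _ ⟨r, _, rfl⟩
      positivity
    have hA' : ((edgeBoundary A).card : ℝ) ≤ L₁ * mBound A :=
      hA.trans (mul_le_mul_of_nonneg_right (le_max_left _ _) hm)
    obtain ⟨S, h2, h3⟩ := small_step h1 hc hη0 hη1 hk hn A hne hα hA'
    have h4 : Real.exp (-(ε * n)) ≤
        ((A ∩ Fintype.piFinset S).card : ℝ) / ((Fintype.piFinset S).card : ℝ) := by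
      refine le_trans (Real.exp_le_exp.2 ?_) h3
      rw [neg_le_neg_iff]
      exact mul_le_mul_of_nonneg_right hηε (Nat.cast_nonneg _)
    refine ⟨S, h2, h4, le_trans ?_ h4⟩
    calc Real.exp ((c - ε) * n) * meas A
        ≤ Real.exp ((c - ε) * n) * Real.exp (-(c * n)) :=
          mul_le_mul_of_nonneg_left hα (Real.exp_pos _).le
      _ = Real.exp (-(ε * n)) := by
          rw [← Real.exp_add]
          congr 1
          ring

end Pool.Agent.Grid.OldSmallSets
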